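import Pool.Agent.Q48.RD.Lin
import Pool.Agent.Q48.RD.Pat

/-!
# Almost primes `2 k p + 1` for several primes `p` and a common `k < 2 (p + 1)` with restricted digits

Let `p_1, …, p_J` be odd primes. A positive integer `k` is admissible for `p_j` if `k < 2 (p_j + 1)` and `p_j` does not divide `k`. We
consider the `k` which are admissible for all `p_j` and for which all `2 k p_j + 1` are almost primes.

Let `g ≥ 2` be a base and `K` a large number of digits. For every `i < K` let `A i` be an arbitrary set of digits, such that the number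
`|A 0| ⋯ |A (K - 1)|` of the integers `t < g ^ K` whose `i`-th digit belongs to `A i` for all `i < K` is at least `exp (- c K) g ^ K`
(`Rich`). Let `N ≥ 1` and the odd primes `p_j ≤ g ^ (E K)` be arbitrary with `N + g ^ K ≤ 2 (p_j + 1)`, so that the length `g ^ K` of the
interval of the `k = N + t` may be an arbitrarily small power of the primes.

The number of the `k = N + t` with these `t` which are admissible for all `p_j` and for which all `2 k p_j + 1` have at most `r` prime
factors, all larger than `g ^ (K / r)`, is at least `κ V |A 0| ⋯ |A (K - 1)|`, and also at least `κ |A 0| ⋯ |A (K - 1)| / K ^ J`, unless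
there is an obvious obstruction (no digit `d` in `A 0` such that the `J` numbers for `k = N + d` are prime to `g`); the number of the
`k = N + t` with these `t` for which all `2 k p_j + 1` are primes is at most `C V |A 0| ⋯ |A (K - 1)|`. Here `V` is the product of
`1 - ν (l) / l` over the primes `l ≤ g ^ K`, where `ν (l)` is the number of the `k` modulo `l` such that `l` divides one of the numbers
`2 k p_j + 1`, the expected order. The constants do not depend on the primes `p_j`, on `N` and on the sets `A i`.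
-/

set_option autoImplicit false

namespace Pool.Agent.Results.MP_2f88e5_nt.CommonMultiplier

open Filter Finset
open Pool.Agent.Q315.RD Pool.Agent.Q48.RD

/-- `k` is admissible for `p`. -/
def Admissible (p k : ℕ) : Prop := 1 ≤ k ∧ k < 2 * (p + 1) ∧ ¬ p ∣ k

/-- The product of `1 - ν (l) / l` over the primes `l ≤ y`, `ν (l)` the number of the zeros modulo `l` of the product of the
polynomials `2 p_j X + 1`. -/
noncomputable def V {J : ℕ} (p : Fin J → ℕ) (y : ℕ) : ℝ := linDensity (fun j => 2 * (p j : ℤ)) (fun _ => 1) y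

lemma few {J : ℕ} (p : Fin J → ℕ) (hp : ∀ j, 2 ≤ p j) (g K N : ℕ) (A : ℕ → Finset ℕ) (P : ℕ → Prop) (hN : 1 ≤ N)
    (h : ∀ j, N + g ^ K ≤ 2 * (p j + 1)) :
    count g K A P ≤ count g K A (fun t => (∀ j, Admissible (p j) (N + t)) ∧ P t) + 2 * J := by
  classical
  refine (count_le_add g K A P _ (univ.biUnion fun j : Fin J => ({p j - N, 2 * p j - N} : Finset ℕ)) fun t ht hP => ?_).trans
    (Nat.add_le_add_left ?_ _)
  · rw [or_iff_not_imp_right]
    intro h2
    refine ⟨fun j => ⟨by omega, ?_, fun h4 => h2 ?_⟩, hP⟩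
    · have := h j
      omega
    · rw [mem_biUnion]
      refine ⟨j, mem_univ j, ?_⟩
      obtain ⟨q, hq⟩ := h4
      have h6 := h j
      have h7 := hp j
      have h8 : q ≠ 0 := by rintro rfl; omega
      have h9 : q < 3 := by
        by_contra hcon
        push Not at hcon
        have : p j * 3 ≤ p j * q := Nat.mul_le_mul_left _ hcon
        omega
      rw [mem_insert, mem_singleton]
      obtain rfl | rfl : q = 1 ∨ q = 2 := by omega
      · left; omega
      · right; omega
  · refine card_biUnion_le.trans ?_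
    calc ∑ j : Fin J, ({p j - N, 2 * p j - N} : Finset ℕ).card ≤ ∑ _j : Fin J, 2 := sum_le_sum fun j _ => card_le_two
      _ = 2 * J := by simp [mul_comm]

/-- **Almost primes `2 k p + 1` for several primes `p` and a common `k < 2 (p + 1)` with restricted digits.** -/
theorem result (J E : ℕ) :
    ∃ c : ℝ, 0 < c ∧ ∃ r₀ : ℕ, 2 ≤ r₀ ∧ ∀ r : ℕ, r₀ ≤ r → ∀ g : ℕ, 2 ≤ g → ∃ κ C : ℝ, 0 < κ ∧ 0 < C ∧
      ∀ᶠ K : ℕ in atTop, ∀ (p : Fin J → ℕ) (N : ℕ), (∀ j, (p j).Prime ∧ p j ≠ 2) → (∀ j, p j ≤ g ^ (E * K)) → 1 ≤ N →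
        (∀ j, N + g ^ K ≤ 2 * (p j + 1)) → N ≤ g ^ (E * K) → ∀ A : ℕ → Finset ℕ, Rich c g K A →
          ((∃ d ∈ A 0, ∀ j, (2 * (N + d) * p j + 1).Coprime g) →
            κ * V p (g ^ K) * choices K A ≤ count g K A (fun t => (∀ j, Admissible (p j) (N + t)) ∧
              ∀ j, AlmostPrime (g ^ K) r (2 * (N + t) * p j + 1)) ∧
            κ * choices K A / (K : ℝ) ^ J ≤ count g K A (fun t => (∀ j, Admissible (p j) (N + t)) ∧
              ∀ j, AlmostPrime (g ^ K) r (2 * (N + t) * p j + 1))) ∧
          (count g K A (fun t => ∀ j, (2 * (N + t) * p j + 1).Prime) : ℝ) ≤ C * V p (g ^ K) * choices K A := by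
  obtain ⟨c, hc, r₀, hr₀, h⟩ := famLin' J (E + 1)
  refine ⟨min c (1 / 2), by positivity, r₀, hr₀, fun r hr g hg => ?_⟩
  obtain ⟨κ, C, hκ, hC, h1⟩ := h r hr g hg
  refine ⟨κ / 2, C, by positivity, hC, ?_⟩
  obtain ⟨M, hM⟩ := exists_nat_ge (4 * J / κ)
  filter_upwards [h1, many M J, eventually_ge_atTop 1] with K hK hmany hK1
  intro p N hp hpE hN hNp hNE A hA
  have hg1 : 1 ≤ g := by omega
  have hEE : 2 * g ^ (E * K) ≤ g ^ ((E + 1) * K) := by
    rw [add_mul, one_mul, pow_add, mul_comm]
    exact Nat.mul_le_mul_left _ (hg.trans (Nat.le_self_pow (by omega) g))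
  have hAc : Rich c g K A := rich_mono hA (min_le_left _ _)
  have hAh : Rich (1 / 2) g K A := rich_mono hA (min_le_right _ _)
  have h2 := hmany g hg A hAh
  obtain ⟨h3, h4⟩ := hK (fun j => 2 * (p j : ℤ)) (fun _ => 1) N (fun j t => 2 * (N + t) * p j + 1)
    (fun j => by
      rw [abs_of_nonneg (by positivity)]
      exact_mod_cast (Nat.mul_le_mul_left 2 (hpE j)).trans hEE)
    (fun j => by
      rw [abs_one]
      exact_mod_cast Nat.one_le_pow _ _ hg1)
    (by have := Nat.zero_le (g ^ (E * K)); omega)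
    (fun l hl => ⟨0, fun j hj => by
      have h5 : (l : ℤ) ∣ 1 := by simpa using hj
      have h6 : l ∣ 1 := by exact_mod_cast h5
      exact hl.one_lt.ne' (Nat.dvd_one.1 h6)⟩)
    (fun t _ j => by push_cast; ring)
    (fun t _ j => by
      have h5 := (hp j).1.two_le
      nlinarith)
    A hAc
  refine ⟨fun hd => ?_, h4⟩
  obtain ⟨h5, h6⟩ := h3 hd
  have h7 := few p (fun j => (hp j).1.two_le) g K N A (fun t => ∀ j, AlmostPrime (g ^ K) r (2 * (N + t) * p j + 1)) hN hNp
  have h8 : (4 : ℝ) * J ≤ κ * choices K A / (K : ℝ) ^ J := by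
    have h9 : 4 * J / κ ≤ choices K A / (K : ℝ) ^ J := hM.trans h2
    rw [div_le_iff₀ hκ] at h9
    calc (4 : ℝ) * J ≤ choices K A / (K : ℝ) ^ J * κ := h9
      _ = _ := by ring
  have h9 : (count g K A (fun t => ∀ j, AlmostPrime (g ^ K) r (2 * (N + t) * p j + 1)) : ℝ) ≤
      count g K A (fun t => (∀ j, Admissible (p j) (N + t)) ∧ ∀ j, AlmostPrime (g ^ K) r (2 * (N + t) * p j + 1)) + 2 * J := by
    exact_mod_cast h7
  have e1 : κ / 2 * V p (g ^ K) * choices K A = κ * V p (g ^ K) * choices K A / 2 := by ring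
  have e2 : κ / 2 * choices K A / (K : ℝ) ^ J = κ * choices K A / (K : ℝ) ^ J / 2 := by ring
  have e3 : κ * V p (g ^ K) * choices K A ≤ (count g K A (fun t => ∀ j, AlmostPrime (g ^ K) r (2 * (N + t) * p j + 1)) : ℝ) := h5
  rw [e1, e2]
  constructor <;> linarith

end Pool.Agent.Results.MP_2f88e5_nt.CommonMultiplier
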