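import Pool.Agent.Q48.RD.Pairs

/-!
# Almost primes `p` with many almost primes `2 k p + 1`, `k` of the order of `log p`

Let `g ≥ 2` be a base and `K` a large number of digits. For every `i < K` let `A i` be an arbitrary set of digits, such that the number
`|A 0| ⋯ |A (K - 1)|` of the integers `t < g ^ K` whose `i`-th digit belongs to `A i` for all `i < K` is at least `exp (- c K) g ^ K`
(`Rich`). Let `N ≤ g ^ (E K)` be arbitrary. We consider the integers `p = N + t` with these `t` which have at most `r` prime factors, all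
of them larger than `y ^ (1 / r)` with `y = g ^ K`; their number is at most `C |A 0| ⋯ |A (K - 1)| / K`. We assume that for some
digit `d` in `A 0` the number `N + d` is prime to `g` (otherwise there are no such `p`).

Let `g ≤ T ≤ y ^ (1 / r)`. For at least `(κ / K) min (1, T / K) |A 0| ⋯ |A (K - 1)|` of these `p` there are at least `κ T / K`, and at
least one, `k ≤ T` such that `2 k p + 1` has at most `r` prime factors, all of them larger than `y ^ (1 / r)`. All these `k` are smaller
than `p` and prime to `p`, so they are admissible for `p`.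

So for a positive proportion of these `p` there is such a `k` at most a constant times `log p`.
-/

set_option autoImplicit false

namespace Pool.Agent.Results.MP_2f88e5_nt.MultipliersUpToLog

open Filter Finset
open Pool.Agent.Q315.RD Pool.Agent.Q48.RD
open Pool.Agent.Erdos456 (GG)

open Classical in
/-- The number of the `k` with `1 ≤ k ≤ T` such that `2 k p + 1` has at most `r` prime factors, all larger than `y ^ (1 / r)`. -/
noncomputable def multipliers (y r p T : ℕ) : ℕ := ((Icc 1 T).filter fun k => AlmostPrime y r (2 * k * p + 1)).card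

lemma GG_two_mul {n : ℕ} (hn : 1 ≤ n) : GG (2 * n) ≤ 2 * GG n := by
  have h1 := GG_mul_le (m := 2) (n := n) (by norm_num) hn
  have h2 : GG 2 = 2 := by
    unfold GG
    simp
  rwa [h2] at h1

/-- **Almost primes with many multipliers of the order of the logarithm.** -/
theorem result (E : ℕ) :
    ∃ c : ℝ, 0 < c ∧ ∃ r₀ : ℕ, 2 ≤ r₀ ∧ ∀ r : ℕ, r₀ ≤ r → ∀ g : ℕ, 2 ≤ g → ∃ κ C : ℝ, 0 < κ ∧ 0 < C ∧
      ∀ᶠ K : ℕ in atTop, ∀ N : ℕ, N ≤ g ^ (E * K) → ∀ A : ℕ → Finset ℕ, Rich c g K A →
        (count g K A (fun t => AlmostPrime (g ^ K) r (N + t)) : ℝ) ≤ C / K * choices K A ∧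
        ((∃ d ∈ A 0, (N + d).Coprime g) → ∀ T : ℕ, g ≤ T → T ^ r ≤ g ^ K →
          κ / K * min 1 ((T : ℝ) / K) * choices K A ≤ count g K A (fun t =>
            AlmostPrime (g ^ K) r (N + t) ∧ (∀ k : ℕ, 1 ≤ k → k ≤ T → k < N + t ∧ k.Coprime (N + t)) ∧
            1 ≤ multipliers (g ^ K) r (N + t) T ∧ κ * (T / K) ≤ multipliers (g ^ K) r (N + t) T)) := by
  classical
  obtain ⟨c1, hc1, r1, hr1, H1⟩ := famLinR 2 (E + 2)
  obtain ⟨c2, hc2, r2, hr2, H2⟩ := upForms 1 (E + 2)
  obtain ⟨c3, hc3, r3, hr3, H3⟩ := upForms 2 (E + 2)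
  obtain ⟨c4, hc4, r4, hr4, H4⟩ := upForms 3 (E + 2)
  obtain ⟨B, hB, HB⟩ := GG_moment 2
  refine ⟨min (min c1 (1 / 2)) (min c2 (min c3 c4)), by positivity, max (max r1 r2) (max r3 r4), by omega, fun r hr g hg => ?_⟩
  obtain ⟨κ1, C1, hκ1, hC1, H1⟩ := H1 r (by omega) g hg
  obtain ⟨C2, hC2, H2⟩ := H2 r (by omega) g hg
  obtain ⟨C3, hC3, H3⟩ := H3 r (by omega) g hg
  obtain ⟨C4, hC4, H4⟩ := H4 r (by omega) g hg
  obtain ⟨w, W, hw, hW, HG⟩ := oneV_GG (E + 2) g hg
  have hg0 : (0 : ℝ) < g := by exact_mod_cast (by omega : 0 < g)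
  obtain ⟨C, hC⟩ : ∃ C : ℝ, C = C3 * W ^ 2 * 2 * B + C4 * W ^ 3 * 8 * (2 * B ^ 2) := ⟨_, rfl⟩
  have hC0 : 0 < C := by rw [hC]; positivity
  obtain ⟨μ, hμ⟩ : ∃ μ : ℝ, μ = min (κ1 / (4 * g * (C2 * W))) (κ1 ^ 2 / (32 * g ^ 2 * C)) := ⟨_, rfl⟩
  have hμ0 : 0 < μ := by rw [hμ]; positivity
  obtain ⟨m0, hm0⟩ := exists_nat_ge (2 * 2 / μ)
  refine ⟨μ / 2, C2 * W, by positivity, by positivity, ?_⟩
  filter_upwards [H1, H2, H3, H4, HG, many m0 2, eventually_ge_atTop (2 * r + 2)] with K K1 K2 K3 K4 KG KM hK1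
  intro N hN A hA
  have hKr : (0 : ℝ) < K := by exact_mod_cast (by omega : 0 < K)
  have hg1 : 1 ≤ g := by omega
  have hrich : ∀ c' : ℝ, min (min c1 (1 / 2)) (min c2 (min c3 c4)) ≤ c' → Rich c' g K A := fun c' hc' => ⟨hA.1, hA.2.trans (by gcongr)⟩
  have hA1 := hrich c1 ((min_le_left _ _).trans (min_le_left _ _))
  have hAh := hrich (1 / 2) ((min_le_left _ _).trans (min_le_right _ _))
  have hA2 := hrich c2 ((min_le_right _ _).trans (min_le_left _ _))
  have hA3 := hrich c3 ((min_le_right _ _).trans ((min_le_right _ _).trans (min_le_left _ _)))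
  have hA4 := hrich c4 ((min_le_right _ _).trans ((min_le_right _ _).trans (min_le_right _ _)))
  have hcs : (0 : ℝ) ≤ choices K A := Nat.cast_nonneg _
  have hnat : ∀ n : ℕ, n ≤ g ^ ((E + 2) * K) → |(n : ℤ)| ≤ (g : ℤ) ^ ((E + 2) * K) := fun n hn => by
    rw [abs_of_nonneg (by positivity)]
    exact_mod_cast hn
  have hG0 : ∀ n : ℕ, 0 ≤ GG n := fun n => by unfold GG; positivity
  have hGG1 : GG 1 = 1 := by unfold GG; simp
  have hN' : N ≤ g ^ ((E + 2) * K) := hN.trans (Nat.pow_le_pow_right hg1 (by nlinarith))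
  have hone : 1 ≤ g ^ ((E + 2) * K) := Nat.one_le_pow _ _ hg1
  have hV1 : oneV (1 : ℤ) (g ^ K) ≤ W / K := by
    have := (KG 1 le_rfl hone).2
    rw [hGG1, mul_one] at this
    exact_mod_cast this
  have hV10 := oneV_nonneg 1 (g ^ K)
  -- the number of the `p`
  have hbase : (count g K A (fun t => AlmostPrime (g ^ K) r (N + t)) : ℝ) ≤ C2 * W / K * choices K A := by
    have h4 := K2 (fun _ => (1 : ℤ)) (fun _ => (0 : ℤ)) N (fun _ t => N + t) (fun _ => hnat 1 hone)
      (fun _ => by rw [abs_zero]; positivity) hN' (fun _ => isCoprime_one_left)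
      (fun i j hij => absurd hij (by rw [Subsingleton.elim i j]; exact lt_irrefl _)) (fun t _ _ => by push_cast; ring) A hA2
    have h5 : (univ : Finset (Fin 1 × Fin 1)).filter (fun x => x.1 < x.2) = ∅ := by decide
    rw [h5, prod_empty, mul_one] at h4
    simp only [forall_const, univ_unique, prod_const, card_singleton, pow_one] at h4
    refine h4.trans ?_
    calc C2 * oneV 1 (g ^ K) * choices K A ≤ C2 * (W / K) * choices K A := by gcongr
      _ = _ := by ring
  refine ⟨hbase, ?_⟩
  rintro ⟨d, hdA, hdc⟩ T hgT hTr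
  have hT1 : 1 ≤ T := by omega
  have hTpos : (0 : ℝ) < T := by exact_mod_cast hT1
  have hr1 : 1 ≤ r := by omega
  have hTK : T ≤ g ^ K := (Nat.le_self_pow (by omega) T).trans hTr
  have hT2 : 2 * T ≤ g ^ ((E + 2) * K) := by
    calc 2 * T ≤ g ^ K * g ^ K := Nat.mul_le_mul (hg.trans (Nat.le_self_pow (by omega) g)) hTK
      _ = g ^ (2 * K) := by rw [← pow_add]; congr 1; ring
      _ ≤ _ := Nat.pow_le_pow_right hg1 (by nlinarith)
  obtain ⟨H, hH⟩ : ∃ H : Finset ℕ, H = Icc 1 T := ⟨_, rfl⟩
  have hHmem : ∀ h ∈ H, 1 ≤ h ∧ h ≤ T := fun h hh => by rw [hH, mem_Icc] at hh; exact hh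
  have hco : ∀ h : ℕ, IsCoprime ((2 * h : ℕ) : ℤ) (1 : ℤ) := fun h => isCoprime_one_right
  -- the first moment
  have hX : κ1 * (T / K) / (2 * g) / K * choices K A ≤
      ∑ h ∈ H, (count g K A (fun t => AlmostPrime (g ^ K) r (N + t) ∧ AlmostPrime (g ^ K) r (2 * h * (N + t) + 1)) : ℝ) := by
    have hinj : Set.InjOn (fun j => g * j) ((Icc 1 (T / g) : Finset ℕ) : Set ℕ) := fun j _ j' _ h => Nat.eq_of_mul_eq_mul_left (by omega) h
    have hcard : (T : ℝ) / (2 * g) ≤ (((Icc 1 (T / g)).image (fun j => g * j)).card : ℝ) := by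
      rw [card_image_of_injOn hinj, Nat.card_Icc, Nat.add_sub_cancel]
      have h2 : T < g * (T / g + 1) := by
        have := Nat.div_add_mod T g
        have := Nat.mod_lt T (by omega : 0 < g)
        rw [mul_add, mul_one]
        omega
      have h3 : 1 ≤ T / g := (Nat.one_le_div_iff (by omega)).2 hgT
      have h4 : (T : ℝ) ≤ g * ((T / g : ℕ) + 1) := by exact_mod_cast h2.le
      have h5 : (1 : ℝ) ≤ (T / g : ℕ) := by exact_mod_cast h3
      rw [div_le_iff₀ (by positivity)]
      nlinarith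
    calc κ1 * (T / K) / (2 * g) / K * choices K A = T / (2 * g) * (κ1 * choices K A / (K : ℝ) ^ 2) := by field_simp
      _ ≤ (((Icc 1 (T / g)).image (fun j => g * j)).card : ℝ) * (κ1 * choices K A / (K : ℝ) ^ 2) :=
          mul_le_mul_of_nonneg_right hcard (by positivity)
      _ = ∑ h ∈ (Icc 1 (T / g)).image (fun j => g * j), κ1 * choices K A / (K : ℝ) ^ 2 := by rw [sum_const, nsmul_eq_mul]
      _ ≤ ∑ h ∈ (Icc 1 (T / g)).image (fun j => g * j),
            (count g K A (fun t => AlmostPrime (g ^ K) r (N + t) ∧ AlmostPrime (g ^ K) r (2 * h * (N + t) + 1)) : ℝ) := by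
          apply sum_le_sum
          intro h hh
          obtain ⟨j, hj, rfl⟩ := mem_image.1 hh
          rw [mem_Icc] at hj
          have hle : g * j ≤ T := (Nat.mul_le_mul_left g hj.2).trans (Nat.mul_div_le T g)
          have hadm : AdmZ ![(1 : ℤ), ((2 * (g * j) : ℕ) : ℤ)] ![(0 : ℤ), (1 : ℤ)] := by
            intro p hp
            have hpz := Nat.prime_iff_prime_int.1 hp
            have hp1 : ¬ (p : ℤ) ∣ 1 := fun h => hpz.not_isUnit (isUnit_of_dvd_one h)
            by_cases h2 : (p : ℤ) ∣ 2 * (g * j : ℕ) + 1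
            · refine ⟨-1, fun i hi => ?_⟩
              fin_cases i
              · have h5 : (p : ℤ) ∣ 1 * (-1) + 0 := hi
                rw [mul_neg_one, add_zero, dvd_neg] at h5
                exact hp1 h5
              · have h5 : (p : ℤ) ∣ ((2 * (g * j) : ℕ) : ℤ) * (-1) + 1 := hi
                have h6 : (p : ℤ) ∣ 2 := by
                  have := dvd_add h2 h5
                  have e : 2 * ((g * j : ℕ) : ℤ) + 1 + (((2 * (g * j) : ℕ) : ℤ) * (-1) + 1) = 2 := by push_cast; ring
                  rwa [e] at this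
                have h7 : p = 2 := by
                  have h8 : p ∣ 2 := by exact_mod_cast h6
                  exact (Nat.prime_dvd_prime_iff_eq hp Nat.prime_two).1 h8
                subst h7
                push_cast at h2
                omega
            · refine ⟨1, fun i hi => ?_⟩
              fin_cases i
              · have h5 : (p : ℤ) ∣ 1 * 1 + 0 := hi
                rw [mul_one, add_zero] at h5
                exact hp1 h5
              · have h5 : (p : ℤ) ∣ ((2 * (g * j) : ℕ) : ℤ) * 1 + 1 := hi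
                apply h2
                have e : ((2 * (g * j) : ℕ) : ℤ) * 1 + 1 = 2 * ((g * j : ℕ) : ℤ) + 1 := by push_cast; ring
                rwa [e] at h5
          have h1 := K1 ![(1 : ℤ), ((2 * (g * j) : ℕ) : ℤ)] ![(0 : ℤ), (1 : ℤ)] N (fun i t => ![N + t, 2 * (g * j) * (N + t) + 1] i)
            (fun i => by
              fin_cases i
              · exact hnat 1 hone
              · exact hnat (2 * (g * j)) (by omega))
            (fun i => by
              fin_cases i
              · change |(0 : ℤ)| ≤ _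
                rw [abs_zero]; positivity
              · exact hnat 1 hone) hN' hadm
            (fun t _ i => by
              fin_cases i
              · change ((N + t : ℕ) : ℤ) = 1 * ((N : ℤ) + t) + 0
                push_cast; ring
              · change ((2 * (g * j) * (N + t) + 1 : ℕ) : ℤ) = ((2 * (g * j) : ℕ) : ℤ) * ((N : ℤ) + t) + 1
                push_cast; ring) A hA1
          have h2 := (h1.1 ⟨d, hdA, fun i => by
            fin_cases i
            · exact hdc
            · change (2 * (g * j) * (N + d) + 1).Coprime g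
              have e : 2 * (g * j) * (N + d) + 1 = 1 + g * (2 * j * (N + d)) := by ring
              rw [e]
              simp⟩).2
          simp only [Fin.forall_fin_two, Matrix.cons_val_zero, Matrix.cons_val_one, Matrix.cons_val_fin_one] at h2
          exact h2
      _ ≤ _ := by
          apply sum_le_sum_of_subset_of_nonneg
          · intro h hh
            obtain ⟨j, hj, rfl⟩ := mem_image.1 hh
            rw [mem_Icc] at hj
            rw [hH, mem_Icc]
            exact ⟨Nat.mul_pos hg1 hj.1, (Nat.mul_le_mul_left g hj.2).trans (Nat.mul_div_le T g)⟩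
          · intro _ _ _
            exact Nat.cast_nonneg _
  -- the second moment
  have hV : ∀ h : ℕ, 1 ≤ h → h ≤ T → oneV ((2 * h : ℕ) : ℤ) (g ^ K) ≤ W * (2 * GG h) / K := fun h h1 h2 => by
    refine ((KG (2 * h) (by omega) ((Nat.mul_le_mul_left 2 h2).trans hT2)).2).trans ?_
    gcongr
    exact GG_two_mul h1
  have hdiag : ∀ h ∈ H, (count g K A (fun t => AlmostPrime (g ^ K) r (N + t) ∧ AlmostPrime (g ^ K) r (2 * h * (N + t) + 1) ∧
      AlmostPrime (g ^ K) r (2 * h * (N + t) + 1)) : ℝ) ≤ C3 * W ^ 2 * 2 / (K : ℝ) ^ 2 * GG h * choices K A := by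
    intro h hh
    obtain ⟨h1, h2⟩ := hHmem h hh
    have h4 := K3 ![(1 : ℤ), ((2 * h : ℕ) : ℤ)] ![(0 : ℤ), (1 : ℤ)] N (fun i t => ![N + t, 2 * h * (N + t) + 1] i)
      (fun i => by
        fin_cases i
        · exact hnat 1 hone
        · exact hnat (2 * h) (by omega))
      (fun i => by
        fin_cases i
        · change |(0 : ℤ)| ≤ _
          rw [abs_zero]; positivity
        · exact hnat 1 hone) hN'
      (fun i => by
        fin_cases i
        · exact isCoprime_one_left
        · exact isCoprime_one_right)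
      (fun i j hij => by
        have hi : i = 0 := by omega
        have hj : j = 1 := by omega
        subst hi; subst hj
        simp)
      (fun t _ i => by
        fin_cases i
        · change ((N + t : ℕ) : ℤ) = 1 * ((N : ℤ) + t) + 0
          push_cast; ring
        · change ((2 * h * (N + t) + 1 : ℕ) : ℤ) = ((2 * h : ℕ) : ℤ) * ((N : ℤ) + t) + 1
          push_cast; ring) A hA3
    have h5 : (univ : Finset (Fin 2 × Fin 2)).filter (fun x => x.1 < x.2) = {(0, 1)} := by decide
    rw [h5, prod_singleton, Fin.prod_univ_two] at h4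
    simp only [Fin.forall_fin_two, Matrix.cons_val_zero, Matrix.cons_val_one, Matrix.cons_val_fin_one] at h4
    simp only [and_self]
    refine h4.trans ?_
    have h6 : (1 * 1 - ((2 * h : ℕ) : ℤ) * 0).natAbs = 1 := by simp
    rw [h6, hGG1, mul_one]
    calc C3 * (oneV 1 (g ^ K) * oneV ((2 * h : ℕ) : ℤ) (g ^ K)) * choices K A ≤
        C3 * ((W / K) * (W * (2 * GG h) / K)) * choices K A := by
          apply mul_le_mul_of_nonneg_right _ hcs
          apply mul_le_mul_of_nonneg_left _ hC3.le
          exact mul_le_mul hV1 (hV h h1 h2) (oneV_nonneg _ _) (by positivity)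
      _ = _ := by ring
  have hoff : ∀ h ∈ H, ∀ h' ∈ H, h ≠ h' → (count g K A (fun t => AlmostPrime (g ^ K) r (N + t) ∧
      AlmostPrime (g ^ K) r (2 * h * (N + t) + 1) ∧ AlmostPrime (g ^ K) r (2 * h' * (N + t) + 1)) : ℝ) ≤
      C4 * W ^ 3 * 8 / (K : ℝ) ^ 3 * (GG h * GG h' * GG ((h : ℤ) - h').natAbs) * choices K A := by
    intro h hh h' hh' hne
    obtain ⟨h1, h2⟩ := hHmem h hh
    obtain ⟨h1', h2'⟩ := hHmem h' hh'
    have h4 := K4 ![(1 : ℤ), ((2 * h : ℕ) : ℤ), ((2 * h' : ℕ) : ℤ)] ![(0 : ℤ), (1 : ℤ), (1 : ℤ)] N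
      (fun i t => ![N + t, 2 * h * (N + t) + 1, 2 * h' * (N + t) + 1] i)
      (fun i => by
        fin_cases i
        · exact hnat 1 hone
        · exact hnat (2 * h) (by omega)
        · exact hnat (2 * h') (by omega))
      (fun i => by
        fin_cases i
        · change |(0 : ℤ)| ≤ _
          rw [abs_zero]; positivity
        · exact hnat 1 hone
        · exact hnat 1 hone) hN'
      (fun i => by
        fin_cases i
        · exact isCoprime_one_left
        · exact isCoprime_one_right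
        · exact isCoprime_one_right)
      (fun i j hij => by
        fin_cases i <;> fin_cases j <;> simp at hij ⊢
        omega)
      (fun t _ i => by
        fin_cases i
        · change ((N + t : ℕ) : ℤ) = 1 * ((N : ℤ) + t) + 0
          push_cast; ring
        · change ((2 * h * (N + t) + 1 : ℕ) : ℤ) = ((2 * h : ℕ) : ℤ) * ((N : ℤ) + t) + 1
          push_cast; ring
        · change ((2 * h' * (N + t) + 1 : ℕ) : ℤ) = ((2 * h' : ℕ) : ℤ) * ((N : ℤ) + t) + 1
          push_cast; ring) A hA4
    have h5 : (univ : Finset (Fin 3 × Fin 3)).filter (fun x => x.1 < x.2) = {(0, 1), (0, 2), (1, 2)} := by decide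
    have h51 : (0, 1) ∉ ({(0, 2), (1, 2)} : Finset (Fin 3 × Fin 3)) := by decide
    have h52 : (0, 2) ∉ ({(1, 2)} : Finset (Fin 3 × Fin 3)) := by decide
    rw [h5, prod_insert h51, prod_insert h52, prod_singleton, Fin.prod_univ_three] at h4
    simp only [Fin.forall_fin_succ, IsEmpty.forall_iff, and_true, Matrix.cons_val_zero, Matrix.cons_val_one,
      Matrix.cons_val_two, Matrix.head_cons, Matrix.tail_cons, Matrix.cons_val_succ, Matrix.cons_val_fin_one] at h4
    refine h4.trans ?_
    have h6 : (1 * 1 - ((2 * h : ℕ) : ℤ) * 0).natAbs = 1 := by simp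
    have h7 : (1 * 1 - ((2 * h' : ℕ) : ℤ) * 0).natAbs = 1 := by simp
    have h8 : (((2 * h : ℕ) : ℤ) * 1 - ((2 * h' : ℕ) : ℤ) * 1).natAbs = 2 * ((h : ℤ) - h').natAbs := by omega
    rw [h6, h7, h8, hGG1, one_mul, one_mul]
    have h9 : 1 ≤ ((h : ℤ) - h').natAbs := by omega
    have hGh := hG0 h
    have hGh' := hG0 h'
    have hGd := hG0 ((h : ℤ) - h').natAbs
    calc C4 * (oneV 1 (g ^ K) * oneV ((2 * h : ℕ) : ℤ) (g ^ K) * oneV ((2 * h' : ℕ) : ℤ) (g ^ K) * GG (2 * ((h : ℤ) - h').natAbs)) * choices K A ≤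
        C4 * ((W / K) * (W * (2 * GG h) / K) * (W * (2 * GG h') / K) * (2 * GG ((h : ℤ) - h').natAbs)) * choices K A := by
          apply mul_le_mul_of_nonneg_right _ hcs
          apply mul_le_mul_of_nonneg_left _ hC4.le
          apply mul_le_mul _ (GG_two_mul h9) (hG0 _) (by positivity)
          apply mul_le_mul _ (hV h' h1' h2') (oneV_nonneg _ _) (by positivity)
          exact mul_le_mul hV1 (hV h h1 h2) (oneV_nonneg _ _) (by positivity)
      _ = _ := by ring
  obtain ⟨u, hu⟩ : ∃ u : ℝ, u = (T : ℝ) / K := ⟨_, rfl⟩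
  have hu0 : 0 < u := by rw [hu]; positivity
  have hY : ∑ h ∈ H, ∑ h' ∈ H, (count g K A (fun t => AlmostPrime (g ^ K) r (N + t) ∧ AlmostPrime (g ^ K) r (2 * h * (N + t) + 1) ∧
      AlmostPrime (g ^ K) r (2 * h' * (N + t) + 1)) : ℝ) ≤ C / K * u * (1 + u) * choices K A := by
    have h1 : ∀ h ∈ H, ∀ h' ∈ H, (count g K A (fun t => AlmostPrime (g ^ K) r (N + t) ∧
        AlmostPrime (g ^ K) r (2 * h * (N + t) + 1) ∧ AlmostPrime (g ^ K) r (2 * h' * (N + t) + 1)) : ℝ) ≤
        (if h' = h then C3 * W ^ 2 * 2 / (K : ℝ) ^ 2 * GG h * choices K A else 0) +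
        C4 * W ^ 3 * 8 / (K : ℝ) ^ 3 * (if h = h' then 0 else GG h * GG h' * GG ((h : ℤ) - h').natAbs) * choices K A := by
      intro h hh h' hh'
      by_cases he : h = h'
      · subst he
        rw [if_pos rfl, if_pos rfl, mul_zero, zero_mul, add_zero]
        exact hdiag h hh
      · rw [if_neg (fun h2 => he h2.symm), if_neg he, zero_add]
        exact hoff h hh h' hh' he
    have hGB : ∑ h ∈ H, GG h ≤ B * T := by
      rw [hH]
      refine (sum_le_sum fun h hh => ?_).trans (HB T)
      have := GG_ge_one (mem_Icc.1 hh).1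
      nlinarith
    have hpairs : ∑ h ∈ H, ∑ h' ∈ H, (if h = h' then 0 else GG h * GG h' * GG ((h : ℤ) - h').natAbs) ≤ 2 * B ^ 2 * (T : ℝ) ^ 2 := by
      rw [hH]
      exact sum_pairs hB.le HB T
    refine (sum_le_sum fun h hh => sum_le_sum fun h' hh' => h1 h hh h' hh').trans ?_
    simp only [sum_add_distrib]
    have e1 : ∑ h ∈ H, ∑ h' ∈ H, (if h' = h then C3 * W ^ 2 * 2 / (K : ℝ) ^ 2 * GG h * choices K A else 0) =
        C3 * W ^ 2 * 2 / (K : ℝ) ^ 2 * choices K A * ∑ h ∈ H, GG h := by
      rw [mul_sum]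
      apply sum_congr rfl
      intro h hh
      rw [sum_ite_eq' H h, if_pos hh]
      ring
    have e2 : ∑ h ∈ H, ∑ h' ∈ H, C4 * W ^ 3 * 8 / (K : ℝ) ^ 3 * (if h = h' then 0 else GG h * GG h' * GG ((h : ℤ) - h').natAbs) * choices K A =
        C4 * W ^ 3 * 8 / (K : ℝ) ^ 3 * choices K A * ∑ h ∈ H, ∑ h' ∈ H, (if h = h' then 0 else GG h * GG h' * GG ((h : ℤ) - h').natAbs) := by
      rw [mul_sum]
      apply sum_congr rfl
      intro h _
      rw [mul_sum]
      apply sum_congr rfl
      intro h' _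
      ring
    rw [e1, e2]
    calc C3 * W ^ 2 * 2 / (K : ℝ) ^ 2 * choices K A * ∑ h ∈ H, GG h + C4 * W ^ 3 * 8 / (K : ℝ) ^ 3 * choices K A *
          ∑ h ∈ H, ∑ h' ∈ H, (if h = h' then 0 else GG h * GG h' * GG ((h : ℤ) - h').natAbs)
        ≤ C3 * W ^ 2 * 2 / (K : ℝ) ^ 2 * choices K A * (B * T) + C4 * W ^ 3 * 8 / (K : ℝ) ^ 3 * choices K A * (2 * B ^ 2 * (T : ℝ) ^ 2) := by
          apply add_le_add
          · exact mul_le_mul_of_nonneg_left hGB (by positivity)
          · exact mul_le_mul_of_nonneg_left hpairs (by positivity)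
      _ = ((C3 * W ^ 2 * 2 * B) * 1 + (C4 * W ^ 3 * 8 * (2 * B ^ 2)) * u) * (u / K) * choices K A := by rw [hu]; field_simp
      _ ≤ (C * 1 + C * u) * (u / K) * choices K A := by
          have h3 : C3 * W ^ 2 * 2 * B ≤ C := by rw [hC]; have : 0 ≤ C4 * W ^ 3 * 8 * (2 * B ^ 2) := by positivity
                                                 linarith
          have h4 : C4 * W ^ 3 * 8 * (2 * B ^ 2) ≤ C := by rw [hC]; have : 0 ≤ C3 * W ^ 2 * 2 * B := by positivity
                                                           linarith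
          gcongr
      _ = _ := by ring
  -- the second moment method
  rw [← hu] at hX ⊢
  have h1 := pz H (fun t => AlmostPrime (g ^ K) r (N + t)) (fun h t => AlmostPrime (g ^ K) r (2 * h * (N + t) + 1)) (C2 * W / K)
    (κ1 * u / (2 * g) / K) (C / K * u * (1 + u)) (by positivity) (by positivity) (by positivity) hbase hX hY
  have h2r : 2 ^ r < g ^ K :=
    (Nat.pow_le_pow_left hg r).trans_lt (Nat.pow_lt_pow_right (by omega) (by omega))
  have h2 := count_split (g := g) (K := K) (A := A)
    (P := fun t => AlmostPrime (g ^ K) r (N + t) ∧ κ1 * u / (2 * g) / K / (2 * (C2 * W / K)) ≤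
      ((H.filter fun h => AlmostPrime (g ^ K) r (2 * h * (N + t) + 1)).card : ℝ))
    (R := fun t => AlmostPrime (g ^ K) r (N + t) ∧ (∀ k : ℕ, 1 ≤ k → k ≤ T → k < N + t ∧ k.Coprime (N + t)) ∧
            1 ≤ multipliers (g ^ K) r (N + t) T ∧ μ / 2 * u ≤ multipliers (g ^ K) r (N + t) T) 2 (by
      intro t ht ht2 hP
      obtain ⟨hP1, hP2⟩ := hP
      have hlow : ∀ p : ℕ, p.Prime → p ∣ N + t → T < p := fun p hp hpd =>
        lt_of_pow_lt_pow_left₀ r (Nat.zero_le _) (hTr.trans_lt (hP1.1 p hp hpd))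
      have h3 : (H.filter fun h => AlmostPrime (g ^ K) r (2 * h * (N + t) + 1)).card = multipliers (g ^ K) r (N + t) T := by
        rw [hH]; rfl
      rw [h3] at hP2
      have h4 : κ1 * u / (2 * g) / K / (2 * (C2 * W / K)) = κ1 / (4 * g * (C2 * W)) * u := by field_simp; norm_num
      rw [h4] at hP2
      refine ⟨hP1, fun k hk1 hkT => ⟨?_, ?_⟩, ?_, ?_⟩
      · have h5 := hlow (N + t).minFac (Nat.minFac_prime (by omega)) (Nat.minFac_dvd _)
        have h6 := Nat.minFac_le (n := N + t) (by omega)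
        omega
      · apply Nat.coprime_of_dvd
        intro p hp hpk hpN
        have h5 := hlow p hp hpN
        have h6 := Nat.le_of_dvd (by omega) hpk
        omega
      · have h5 : (0 : ℝ) < multipliers (g ^ K) r (N + t) T := lt_of_lt_of_le (by positivity) hP2
        exact_mod_cast h5
      · refine le_trans ?_ hP2
        apply mul_le_mul_of_nonneg_right _ hu0.le
        have : μ ≤ κ1 / (4 * g * (C2 * W)) := by rw [hμ]; exact min_le_left _ _
        linarith)
  have h3 : μ / K * min 1 u * choices K A ≤ (κ1 * u / (2 * g) / K) ^ 2 / (4 * (C / K * u * (1 + u))) * choices K A := by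
    apply mul_le_mul_of_nonneg_right _ hcs
    have h4 : min 1 u * (1 + u) ≤ 2 * u := by
      rcases le_total 1 u with h | h
      · rw [min_eq_left h]; linarith
      · rw [min_eq_right h]; nlinarith
    rw [le_div_iff₀ (by positivity)]
    calc μ / K * min 1 u * (4 * (C / K * u * (1 + u))) = μ * (4 * C / (K : ℝ) ^ 2 * u) * (min 1 u * (1 + u)) := by field_simp
      _ ≤ κ1 ^ 2 / (32 * g ^ 2 * C) * (4 * C / (K : ℝ) ^ 2 * u) * (2 * u) := by
          apply mul_le_mul _ h4 (by positivity) (by positivity)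
          apply mul_le_mul_of_nonneg_right _ (by positivity)
          rw [hμ]; exact min_le_right _ _
      _ = _ := by field_simp; norm_num
  have h4 : (2 : ℝ) ≤ μ / 2 / K * min 1 u * choices K A := by
    have h5 := KM g hg A hAh
    have h6 : 2 * 2 / μ ≤ choices K A / (K : ℝ) ^ 2 := hm0.trans h5
    rw [div_le_iff₀ hμ0] at h6
    have h7 : 1 / (K : ℝ) ≤ min 1 u := by
      apply le_min
      · rw [div_le_one hKr]; exact_mod_cast (by omega : 1 ≤ K)
      · rw [hu]; exact div_le_div_of_nonneg_right (by exact_mod_cast hT1) hKr.le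
    calc (2 : ℝ) = 2 * 2 / 2 := by norm_num
      _ ≤ (choices K A / (K : ℝ) ^ 2 * μ) / 2 := by linarith
      _ = μ / 2 / K * (1 / K) * choices K A := by field_simp
      _ ≤ _ := by gcongr
  have h5 : μ / K * min 1 u * choices K A = μ / 2 / K * min 1 u * choices K A + μ / 2 / K * min 1 u * choices K A := by ring
  have h6 := h3.trans (h1.trans h2)
  push_cast at h6
  linarith

end Pool.Agent.Results.MP_2f88e5_nt.MultipliersUpToLog
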