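import Pool.Agent.Q25.UReg6

/-!
# The multipliers `k` that serve `s` primes `p` at once: the laws, for every choice of the primes

Let `s ≥ 2`, `E ≥ 1`, `0 < θ`.  For EVERY large `X` and EVERY `s` different primes `p_1, ..., p_s` in `(X, X ^ E]` call `k`
good if none of the `s` numbers `2 k p_j + 1` has a prime factor `≤ X ^ (1/r)`; all `k` with `1 ≤ k ≤ X` are admissible for
all `p_j`.  In ALL intervals of length at least `X ^ θ` (for instance inside `[1, X]`) the numbers of the good `k` in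
windows follow the Poisson law and the gaps between the good `k` are exponentially distributed, and almost all elements
of an ARBITRARY set of good `k` (for instance of the `k` for which all `2 k p_j + 1` are prime) are regular points of this
set.
-/

set_option autoImplicit false

namespace Pool.Agent.Results.MP_2f88e5_nt.UniformLaws

open Finset
open Pool.Agent.Q25.UReg (Good V count pois PoissonLaw GapLaw N RightOrder ConstantDensity badScales Irregular)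

/-- `k` is admissible for the odd prime `p` -/
def Admissible (p k : ℕ) : Prop := 1 ≤ k ∧ k < 2 * (p + 1) ∧ ¬ p ∣ k

/-- the coefficients `2 p_j` of `k` in `2 k p_j + 1` -/
def co {s : ℕ} (p : Fin s → ℕ) (j : Fin s) : ℤ := 2 * (p j : ℤ)

/-- the constant terms -/
def ct (s : ℕ) (_ : Fin s) : ℤ := 1

lemma adm {s : ℕ} (p : Fin s → ℕ) (l : ℕ) (hl : l.Prime) :
    ∃ m : ℤ, ∀ i, ¬ (l : ℤ) ∣ co p i * m + ct s i := by
  refine ⟨0, fun i h => ?_⟩
  rw [mul_zero, zero_add] at h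
  unfold ct at h
  exact hl.one_lt.ne' (Nat.dvd_one.1 (by exact_mod_cast h))

lemma two {s : ℕ} (hs : 2 ≤ s) (p : Fin s → ℕ) (hp : Function.Injective p) :
    Pool.Agent.Q25.UReg.TwoForms (co p) (ct s) := by
  refine ⟨⟨0, by omega⟩, ⟨1, by omega⟩, ?_, ?_⟩
  · rintro ⟨h, -⟩
    unfold co at h
    have h1 : p ⟨0, by omega⟩ = p ⟨1, by omega⟩ := by omega
    have := hp h1
    simp at this
  · rintro ⟨-, h⟩
    unfold ct at h
    omega

lemma noTr {s : ℕ} (p : Fin s → ℕ) (hp1 : ∀ j, 1 ≤ p j) (U : ℝ) :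
    Pool.Agent.Q25.UReg.NoTranslates2 (co p) (ct s) U := by
  intro i j t ht _
  have ht' : (1 : ℤ) ≤ t := by exact_mod_cast ht
  have h1 : (1 : ℤ) ≤ p j := by exact_mod_cast hp1 j
  have h2 : (1 : ℤ) ≤ p i := by exact_mod_cast hp1 i
  have h3 : (0 : ℤ) < 2 * (p j : ℤ) * t := by positivity
  unfold co ct
  refine ⟨fun h => ?_, fun h => ?_⟩
  · have := h.2
    omega
  · have := h.1
    omega

lemma bounds {s : ℕ} (p : Fin s → ℕ) (X : ℕ) (E : ℝ) (hE : 0 < E) (hX : 2 ≤ X)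
    (hpE : ∀ i, (p i : ℝ) ≤ (X : ℝ) ^ E) :
    (∀ i, |(co p i : ℝ)| ≤ (X : ℝ) ^ (E + 1)) ∧ ∀ i, |(ct s i : ℝ)| ≤ (X : ℝ) ^ (E + 1) := by
  have hX2 : (2 : ℝ) ≤ X := by exact_mod_cast hX
  have e : (X : ℝ) ^ (E + 1) = (X : ℝ) ^ E * X := by
    rw [Real.rpow_add (by linarith), Real.rpow_one]
  constructor
  · intro i
    unfold co
    push_cast
    rw [abs_of_nonneg (by positivity), e, mul_comm]
    exact mul_le_mul (hpE i) hX2 (by norm_num) (by positivity)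
  · intro i
    unfold ct
    simpa using Real.one_le_rpow (by linarith : (1 : ℝ) ≤ X) (by linarith : (0 : ℝ) ≤ E + 1)

lemma admissible {p k X : ℕ} (hX : X < p) (hk : 1 ≤ k) (hkX : k ≤ X) : Admissible p k :=
  ⟨hk, by omega, Nat.not_dvd_of_pos_of_lt (by omega) (by omega)⟩

/-- **The laws of the multipliers that serve `s` primes at once.** -/
theorem result (s : ℕ) (hs : 2 ≤ s) (E θ : ℝ) (hE : 0 < E) (hθ : 0 < θ) :
    (∀ (l₀ : ℕ) (x₀ ε : ℝ), 0 < ε → ∃ r₀ : ℕ, ∀ r : ℕ, r₀ ≤ r → ∃ X₀ : ℕ, ∀ X : ℕ, X₀ ≤ X →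
      ∀ p : Fin s → ℕ, Function.Injective p → (∀ j, (p j).Prime) → (∀ j, X < p j ∧ (p j : ℝ) ≤ (X : ℝ) ^ E) →
        (∀ j k, 1 ≤ k → k ≤ X → Admissible (p j) k) ∧
        ∀ Z Y : ℕ, (X : ℝ) ^ θ ≤ Y →
        PoissonLaw (co p) (ct s) r X Z Y x₀ ε ∧ GapLaw (co p) (ct s) r X Z Y l₀ x₀ ε) ∧
    ∃ r₀ : ℕ, ∀ r : ℕ, r₀ ≤ r → ∀ ε : ℝ, 0 < ε → ∃ c : ℝ, 0 < c ∧ ∀ δ : ℝ, 0 < δ → ∃ B X₀ : ℕ,
      ∀ X : ℕ, X₀ ≤ X →
      ∀ p : Fin s → ℕ, Function.Injective p → (∀ j, (p j).Prime) → (∀ j, X < p j ∧ (p j : ℝ) ≤ (X : ℝ) ^ E) →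
        ∀ u Y : ℕ, (X : ℝ) ^ θ ≤ Y → Y ≤ X → Y ≤ u →
        ∀ A : Set ℕ, (∀ k ∈ A, Good (co p) (ct s) r X k) →
          (N (Irregular A (V (co p) (ct s) r X) c δ B Y) u (u + Y) : ℝ) ≤
            ε * (Y * V (co p) (ct s) r X) := by
  have hne : ∀ (p : Fin s → ℕ), (∀ j, (p j).Prime) → ∀ i, co p i ≠ 0 := by
    intro p hp i
    have := (hp i).pos
    unfold co
    omega
  constructor
  · intro l₀ x₀ ε hε
    obtain ⟨r₀, _, h⟩ := Pool.Agent.Q25.UReg.lin_laws2 s (E + 1) 1 θ (by linarith) one_pos hθ l₀ x₀ ε hε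
    refine ⟨r₀, fun r hr => ?_⟩
    obtain ⟨X₀, hX₀⟩ := Filter.eventually_atTop.1 ((h r hr).and (Filter.eventually_ge_atTop 2))
    refine ⟨X₀, fun X hX p hp hpp hpX => ⟨fun j k h1 h2 => admissible (hpX j).1 h1 h2, fun Z Y hY => ?_⟩⟩
    obtain ⟨h1, h2⟩ := hX₀ X hX
    have hb := bounds p X E hE h2 (fun i => (hpX i).2)
    exact h1 (co p) (ct s) (hne p hpp) hb.1 hb.2 (adm p) (two hs p hp)
      (noTr p (fun j => (hpp j).pos) _) Z Y hY
  · obtain ⟨r₀, _, h⟩ := Pool.Agent.Q25.UReg.lin_reg2 s (E + 1) θ (by linarith) hθ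
    refine ⟨r₀, fun r hr ε hε => ?_⟩
    obtain ⟨c, hc, h1⟩ := h r hr ε hε
    refine ⟨c, hc, fun δ hδ => ?_⟩
    obtain ⟨B, hB⟩ := h1 δ hδ
    obtain ⟨X₀, hX₀⟩ := Filter.eventually_atTop.1 (hB.and (Filter.eventually_ge_atTop 2))
    refine ⟨B, X₀, fun X hX p hp hpp hpX u Y hXY hYX hYu A hA => ?_⟩
    obtain ⟨h1, h2⟩ := hX₀ X hX
    have hb := bounds p X E hE h2 (fun i => (hpX i).2)
    exact h1 (co p) (ct s) (hne p hpp) hb.1 hb.2 (adm p) (two hs p hp) u Y hXY hYX hYu A hA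

end Pool.Agent.Results.MP_2f88e5_nt.UniformLaws
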